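import Pool.Agent.Helper47.FLG.Pde

/-!
# Project FLG: packet DIC (dictionary for test vectors)
-/

namespace Pool.Agent.Helper47.FLG

open Finset Pool.Agent.Helper47.RFn

namespace PkDIC

section sums

variable {α β 𝕜 : Type*} [Fintype α] [Fintype β] [CommRing 𝕜]

theorem swap44 (f : α → α → α → α → β → β → β → β → 𝕜) :
    (∑ i, ∑ j, ∑ k, ∑ l, ∑ a, ∑ b, ∑ c, ∑ d, f i j k l a b c d) =
      ∑ a, ∑ b, ∑ c, ∑ d, ∑ i, ∑ j, ∑ k, ∑ l, f i j k l a b c d := by
  calc (∑ i, ∑ j, ∑ k, ∑ l, ∑ a, ∑ b, ∑ c, ∑ d, f i j k l a b c d)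
      = ∑ p : α × α × α × α, ∑ q : β × β × β × β,
          f p.1 p.2.1 p.2.2.1 p.2.2.2 q.1 q.2.1 q.2.2.1 q.2.2.2 := by
        simp only [Fintype.sum_prod_type]
    _ = ∑ q : β × β × β × β, ∑ p : α × α × α × α,
          f p.1 p.2.1 p.2.2.1 p.2.2.2 q.1 q.2.1 q.2.2.1 q.2.2.2 := Finset.sum_comm
    _ = _ := by simp only [Fintype.sum_prod_type]

theorem swap22 (f : α → α → β → β → 𝕜) :
    (∑ i, ∑ j, ∑ a, ∑ b, f i j a b) = ∑ a, ∑ b, ∑ i, ∑ j, f i j a b := by
  calc (∑ i, ∑ j, ∑ a, ∑ b, f i j a b) = ∑ p : α × α, ∑ q : β × β, f p.1 p.2 q.1 q.2 := by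
        simp only [Fintype.sum_prod_type]
    _ = ∑ q : β × β, ∑ p : α × α, f p.1 p.2 q.1 q.2 := Finset.sum_comm
    _ = _ := by simp only [Fintype.sum_prod_type]

/-- four slots -/
theorem expand (S : β → β → β → β → 𝕜) (A : α → β → 𝕜) (x y z w : α → 𝕜) :
    (∑ i, ∑ j, ∑ k, ∑ l, (∑ a, ∑ b, ∑ c, ∑ d, S a b c d * A i a * A j b * A k c * A l d) *
        x i * y j * z k * w l) =
      ∑ a, ∑ b, ∑ c, ∑ d, S a b c d * (∑ i, A i a * x i) * (∑ j, A j b * y j) *
        (∑ k, A k c * z k) * (∑ l, A l d * w l) := by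
  have h1 : ∀ a b c d, (∑ i, ∑ j, ∑ k, ∑ l, S a b c d * (A i a * x i) * (A j b * y j) *
      (A k c * z k) * (A l d * w l)) = S a b c d * (∑ i, A i a * x i) * (∑ j, A j b * y j) *
        (∑ k, A k c * z k) * (∑ l, A l d * w l) := by
    intro a b c d
    simp only [← Finset.mul_sum, ← Finset.sum_mul]
  simp only [← h1]
  rw [← swap44]
  refine Finset.sum_congr rfl fun i _ => Finset.sum_congr rfl fun j _ =>
    Finset.sum_congr rfl fun k _ => Finset.sum_congr rfl fun l _ => ?_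
  simp only [Finset.sum_mul]
  refine Finset.sum_congr rfl fun a _ => Finset.sum_congr rfl fun b _ =>
    Finset.sum_congr rfl fun c _ => Finset.sum_congr rfl fun d _ => ?_
  ring

/-- product of two transformed vectors -/
theorem prod2 (A : α → β → 𝕜) (x y : β → 𝕜) :
    ∑ i, (∑ a, A i a * x a) * (∑ b, A i b * y b) =
      ∑ a, ∑ b, (∑ i, A i a * A i b) * (x a * y b) := by
  simp only [Finset.sum_mul_sum]
  rw [Finset.sum_comm]
  refine Finset.sum_congr rfl fun a _ => ?_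
  rw [Finset.sum_comm]
  refine Finset.sum_congr rfl fun b _ => ?_
  rw [Finset.sum_mul]
  exact Finset.sum_congr rfl fun i _ => by ring

/-- isometry -/
theorem isom [DecidableEq β] (A : α → β → 𝕜) (hA : ∀ a b, ∑ i, A i a * A i b = if a = b then 1 else 0)
    (x y : β → 𝕜) : ∑ i, (∑ a, A i a * x a) * (∑ b, A i b * y b) = ∑ a, x a * y a := by
  rw [prod2]
  simp only [hA, ite_mul, one_mul, zero_mul, Finset.sum_ite_eq, Finset.mem_univ, if_true]

end sums

variable {n : ℕ} {ν : Ix n → ℝ} {ι : Ix n → Fin n → ℝ}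

theorem R4_pull (hRP2 : RFn.Goal_RP2) {S : T4 (n + 1)} (h : Iso ν ι) (hS : Hor ν S)
    (u v w x : Ix n → ℝ) :
    R4 S u v w x = R4 (pull ι S) (pullr ι u) (pullr ι v) (pullr ι w) (pullr ι x) := by
  have h2 := (hRP2 n ν ι S h hS).2.1
  unfold R4
  have e := expand (α := Ix n) (β := Fin n) (pull ι S) ι u v w x
  unfold pullr
  rw [← e]
  refine Finset.sum_congr rfl fun i _ => Finset.sum_congr rfl fun j _ =>
    Finset.sum_congr rfl fun k _ => Finset.sum_congr rfl fun l _ => ?_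
  rw [← h2 i j k l]

theorem dot_pull (h : Iso ν ι) (u v : Ix n → ℝ) :
    dot (pullr ι u) (pullr ι v) = dot u v - dot ν u * dot ν v := by
  unfold dot pullr
  rw [prod2 (α := Fin n) (β := Ix n) (fun a i => ι i a) u v]
  simp only [h.compl, sub_mul, Finset.sum_sub_distrib, ite_mul, one_mul, zero_mul,
    Finset.sum_ite_eq, Finset.mem_univ, if_true]
  rw [Finset.sum_mul_sum]
  congr 1
  exact Finset.sum_congr rfl fun i _ => Finset.sum_congr rfl fun j _ => by ring

theorem nrm_dot {m : ℕ} (v : Fin m → ℝ) : nrm v = dot v v := by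
  unfold nrm dot
  exact Finset.sum_congr rfl fun i _ => by ring

theorem nrm_pull_le (h : Iso ν ι) (v : Ix n → ℝ) : nrm (pullr ι v) ≤ nrm v := by
  rw [nrm_dot, nrm_dot, dot_pull h]
  nlinarith [mul_self_nonneg (dot ν v)]

theorem con_pull (h : Iso ν ι) {k : ℕ} {X : Fin k → Ix n → ℝ} (hX : Con X) :
    Con (fun i => pullr ι (X i)) := by
  intro c
  have e : (fun j => ∑ i, c i * pullr ι (X i) j) = pullr ι (fun j => ∑ i, c i * X i j) := by
    funext a
    unfold pullr
    simp only [Finset.mul_sum]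
    rw [Finset.sum_comm]
    exact Finset.sum_congr rfl fun i _ => Finset.sum_congr rfl fun j _ => by ring
  rw [e]
  exact (nrm_pull_le h _).trans (hX c)

theorem nrm_push (h : Iso ν ι) (v : Fin n → ℝ) : nrm (fun j => ∑ a, ι j a * v a) = nrm v := by
  rw [nrm_dot, nrm_dot]
  exact isom ι h.orth v v

theorem con_push (h : Iso ν ι) {k : ℕ} {X : Fin k → Fin n → ℝ} (hX : Con X) :
    Con (fun i j => ∑ a, ι j a * X i a) := by
  intro c
  have e : (fun j => ∑ i, c i * ∑ a, ι j a * X i a) =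
      fun j => ∑ a, ι j a * (fun a => ∑ i, c i * X i a) a := by
    funext j
    simp only [Finset.mul_sum]
    rw [Finset.sum_comm]
    exact Finset.sum_congr rfl fun i _ => Finset.sum_congr rfl fun j _ => by ring
  show nrm (fun j => ∑ i, c i * ∑ a, ι j a * X i a) ≤ nrm c
  rw [e, nrm_push h]
  exact hX c

theorem sum_pull2 (M : M2 (n + 1)) (T : M2 n) :
    (∑ i, ∑ j, M i j * ∑ a, ∑ b, T a b * ι i a * ι j b) = ∑ a, ∑ b, pull2 ι M a b * T a b := by
  simp only [Finset.mul_sum]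
  rw [swap22]
  refine Finset.sum_congr rfl fun a _ => Finset.sum_congr rfl fun b _ => ?_
  unfold pull2
  rw [Finset.sum_mul]
  refine Finset.sum_congr rfl fun i _ => ?_
  rw [Finset.sum_mul]
  exact Finset.sum_congr rfl fun j _ => by ring

theorem ric0_sum (hRP2 : RFn.Goal_RP2) {S : T4 (n + 1)} (h : Iso ν ι) (hS : Hor ν S)
    (M : M2 (n + 1)) :
    (∑ a, ∑ b, M a b * (Ric S a b - lam (pull ι S) * Pm ν a b)) =
      ∑ a, ∑ b, pull2 ι M a b * Ric0 (pull ι S) a b := by
  have h4 := (hRP2 n ν ι S h hS).2.2.2.1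
  rw [← sum_pull2]
  refine Finset.sum_congr rfl fun i _ => Finset.sum_congr rfl fun j _ => ?_
  congr 1
  have e : ∀ a b, Ric0 (pull ι S) a b * ι i a * ι j b =
      Ric (pull ι S) a b * ι i a * ι j b - lam (pull ι S) * ((1 : M2 n) a b * (ι i a * ι j b)) := by
    intro a b
    unfold Ric0
    simp only [Matrix.sub_apply, Matrix.smul_apply, smul_eq_mul]
    ring
  simp only [e, Finset.sum_sub_distrib, ← Finset.mul_sum]
  rw [← h4 i j]
  congr 1
  congr 1
  unfold Pm
  rw [← h.compl i j]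
  refine Finset.sum_congr rfl fun a _ => ?_
  simp only [Matrix.one_apply, ite_mul, one_mul, zero_mul, Finset.sum_ite_eq, Finset.mem_univ,
    if_true]

theorem pull2_le (h : Iso ν ι) (M : M2 (n + 1)) :
    (∑ a, ∑ b, pull2 ι M a b ^ 2) ≤ ∑ a, ∑ b, M a b ^ 2 := by
  have e : ∀ a b, pull2 ι M a b = pullr ι (fun i => pullr ι (fun j => M i j) b) a := by
    intro a b
    unfold pull2 pullr
    refine Finset.sum_congr rfl fun i _ => ?_
    rw [Finset.mul_sum]
    exact Finset.sum_congr rfl fun j _ => by ring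
  calc (∑ a, ∑ b, pull2 ι M a b ^ 2)
      = ∑ b, nrm (pullr ι (fun i => pullr ι (fun j => M i j) b)) := by
        rw [Finset.sum_comm]
        unfold nrm
        exact Finset.sum_congr rfl fun b _ => Finset.sum_congr rfl fun a _ => by rw [e a b]
    _ ≤ ∑ b, nrm (fun i => pullr ι (fun j => M i j) b) :=
        Finset.sum_le_sum fun b _ => nrm_pull_le h _
    _ = ∑ i, nrm (pullr ι (fun j => M i j)) := by
        unfold nrm
        exact Finset.sum_comm
    _ ≤ ∑ i, nrm (fun j => M i j) := Finset.sum_le_sum fun i _ => nrm_pull_le h _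
    _ = _ := rfl

theorem push2_sq (h : Iso ν ι) (M : M2 n) :
    (∑ i, ∑ j, (∑ a, ∑ b, ι i a * ι j b * M a b) ^ 2) = ∑ a, ∑ b, M a b ^ 2 := by
  have e : ∀ i j, (∑ a, ∑ b, ι i a * ι j b * M a b) =
      ∑ a, ι i a * (fun a => ∑ b, ι j b * M a b) a := by
    intro i j
    refine Finset.sum_congr rfl fun a _ => ?_
    simp only
    rw [Finset.mul_sum]
    exact Finset.sum_congr rfl fun b _ => by ring
  calc (∑ i, ∑ j, (∑ a, ∑ b, ι i a * ι j b * M a b) ^ 2)
      = ∑ j, nrm (fun i => ∑ a, ι i a * (fun a => ∑ b, ι j b * M a b) a) := by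
        rw [Finset.sum_comm]
        unfold nrm
        exact Finset.sum_congr rfl fun j _ => Finset.sum_congr rfl fun i _ => by rw [e i j]
    _ = ∑ j, nrm (fun a => ∑ b, ι j b * M a b) :=
        Finset.sum_congr rfl fun j _ => nrm_push h _
    _ = ∑ a, nrm (fun j => ∑ b, ι j b * M a b) := by
        unfold nrm
        exact Finset.sum_comm
    _ = ∑ a, nrm (fun b => M a b) := Finset.sum_congr rfl fun a _ => nrm_push h _
    _ = _ := rfl

theorem pull2_push2 (h : Iso ν ι) (M : M2 n) :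
    pull2 ι (fun i j => ∑ a, ∑ b, ι i a * ι j b * M a b) = M := by
  funext c d
  have e : pull2 ι (fun i j => ∑ a, ∑ b, ι i a * ι j b * M a b) c d =
      ∑ a, ∑ b, (∑ i, ι i a * ι i c) * (∑ j, ι j b * ι j d) * M a b := by
    unfold pull2
    simp only [Finset.sum_mul]
    rw [swap22]
    refine Finset.sum_congr rfl fun a _ => Finset.sum_congr rfl fun b _ => ?_
    refine Finset.sum_congr rfl fun i _ => ?_
    rw [Finset.mul_sum, Finset.sum_mul]
    exact Finset.sum_congr rfl fun j _ => by ring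
  rw [e]
  simp only [h.orth, ite_mul, one_mul, zero_mul]
  rw [Finset.sum_eq_single c, Finset.sum_eq_single d]
  · simp
  · intro b _ hb
    simp [hb]
  · simp
  · intro a _ ha
    simp [ha]
  · simp

theorem star_push (z : Fin n → ℂ) (i : Ix n) :
    star (∑ a, (ι i a : ℂ) * z a) = ∑ a, (ι i a : ℂ) * star (z a) := by
  rw [star_sum]
  refine Finset.sum_congr rfl fun k _ => ?_
  rw [star_mul', Complex.star_def, Complex.conj_ofReal]

theorem orthC (h : Iso ν ι) (a b : Fin n) :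
    ∑ i, (ι i a : ℂ) * (ι i b : ℂ) = if a = b then 1 else 0 := by
  have := congrArg (fun r : ℝ => (r : ℂ)) (h.orth a b)
  push_cast at this
  rw [this]
  split <;> simp

theorem push_star (h : Iso ν ι) (z w : Fin n → ℂ) :
    (∑ i, (∑ a, (ι i a : ℂ) * z a) * star (∑ a, (ι i a : ℂ) * w a)) = ∑ a, z a * star (w a) := by
  simp only [star_push]
  exact isom (α := Ix n) (β := Fin n) (fun i a => (ι i a : ℂ)) (orthC h) z (fun a => star (w a))

theorem push_normSq (h : Iso ν ι) (z : Fin n → ℂ) :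
    (∑ i, Complex.normSq (∑ a, (ι i a : ℂ) * z a)) = ∑ a, Complex.normSq (z a) := by
  have e := push_star h z z
  have e1 : ∀ x : ℂ, x * star x = (Complex.normSq x : ℂ) := fun x => Complex.mul_conj x
  simp only [e1] at e
  exact_mod_cast e

end PkDIC

theorem g_DIC (_ : G_R4T) (hRP2 : RFn.Goal_RP2) (_ : RFn.Goal_RP3) (_ : RFn.Goal_RP4) : G_DIC := by
  intro n _ ν ι S h hS
  have hK : ∀ u v : Ix n → ℝ, K2 S u v = K2 (pull ι S) (pullr ι u) (pullr ι v) := fun u v =>
    PkDIC.R4_pull hRP2 h hS u v u v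
  refine ⟨PkDIC.R4_pull hRP2 h hS, hK, PkDIC.dot_pull h, fun k X hX => PkDIC.con_pull h hX,
    fun k X hX => PkDIC.con_push h hX, ?_, PkDIC.ric0_sum hRP2 h hS, PkDIC.pull2_le h,
    fun M => ⟨PkDIC.pull2_push2 h M, PkDIC.push2_sq h M⟩,
    fun z w => ⟨PkDIC.push_normSq h z, PkDIC.push_star h z w⟩⟩
  intro k v X
  unfold elk
  rw [(hRP2 n ν ι S h hS).2.2.2.2.2.2.2.2.1 v]
  simp only [hK]

end Pool.Agent.Helper47.FLG
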